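import Pool.Agent.Helper67.KPG.St3

/-!
# Project KP, module PVC: calculus of polynomial maps
-/

set_option autoImplicit false

namespace Pool.Agent.Helper27.KPG

open Pool.Agent.Helper67.NO Pool.Agent.Helper52.KP Pool.Agent.Helper67.KPG

universe u

variable {g : Type u} [LieRing g] [LieAlgebra ℂ g] [FiniteDimensional ℂ g] {m : ℕ}

lemma pc_const (c : ℂ) : PC (fun _ : Fin m → ℂ => c) := ⟨MvPolynomial.C c, fun z => by simp [ev]⟩

lemma pc_coord (j : Fin m) : PC (fun z : Fin m → ℂ => z j) :=
  ⟨MvPolynomial.X j, fun z => by simp [ev]⟩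

lemma pc_add {F G : (Fin m → ℂ) → ℂ} (hF : PC F) (hG : PC G) : PC (fun z => F z + G z) := by
  obtain ⟨P, hP⟩ := hF
  obtain ⟨Q, hQ⟩ := hG
  exact ⟨P + Q, fun z => by simp [ev, hP z, hQ z]⟩

lemma pc_mul {F G : (Fin m → ℂ) → ℂ} (hF : PC F) (hG : PC G) : PC (fun z => F z * G z) := by
  obtain ⟨P, hP⟩ := hF
  obtain ⟨Q, hQ⟩ := hG
  exact ⟨P * Q, fun z => by simp [ev, hP z, hQ z]⟩

lemma pc_sum {ι : Type} (s : Finset ι) {F : ι → (Fin m → ℂ) → ℂ} (h : ∀ i ∈ s, PC (F i)) :
    PC (fun z => ∑ i ∈ s, F i z) := by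
  classical
  induction s using Finset.induction_on with
  | empty => simpa using pc_const 0
  | insert a s ha ih =>
    simp only [Finset.sum_insert ha]
    exact pc_add (h a (Finset.mem_insert_self a s))
      (ih fun i hi => h i (Finset.mem_insert_of_mem hi))

lemma co_eq (x : g) (i : Fin (Module.finrank ℂ g)) :
    co x i = (Module.finBasis ℂ g).coord i x := rfl

lemma sum_co (x : g) : ∑ i, co x i • (Module.finBasis ℂ g) i = x :=
  (Module.finBasis ℂ g).sum_repr x

lemma pv_const (v : g) : PV (fun _ : Fin m → ℂ => v) := fun _ => pc_const _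

lemma pv_add {F G : (Fin m → ℂ) → g} (hF : PV F) (hG : PV G) : PV (fun z => F z + G z) := by
  intro i
  have h := pc_add (hF i) (hG i)
  simp only [co_eq] at h ⊢
  simpa only [map_add] using h

lemma pv_sum {ι : Type} (s : Finset ι) {F : ι → (Fin m → ℂ) → g} (h : ∀ i ∈ s, PV (F i)) :
    PV (fun z => ∑ i ∈ s, F i z) := by
  intro k
  have h1 := pc_sum s (F := fun i z => co (F i z) k) fun i hi => h i hi k
  simp only [co_eq] at h1 ⊢
  simpa only [map_sum] using h1

lemma pv_smul {a : (Fin m → ℂ) → ℂ} {F : (Fin m → ℂ) → g} (ha : PC a) (hF : PV F) :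
    PV (fun z => a z • F z) := by
  intro i
  have h := pc_mul ha (hF i)
  simp only [co_eq] at h ⊢
  simpa only [map_smul, smul_eq_mul] using h

lemma pc_fun (φ : g →ₗ[ℂ] ℂ) {F : (Fin m → ℂ) → g} (hF : PV F) : PC (fun z => φ (F z)) := by
  have h : (fun z => φ (F z)) =
      fun z => ∑ i ∈ Finset.univ, co (F z) i * φ ((Module.finBasis ℂ g) i) := by
    funext z
    conv_lhs => rw [← sum_co (F z)]
    rw [map_sum]
    exact Finset.sum_congr rfl fun i _ => by rw [map_smul, smul_eq_mul]
  rw [h]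
  exact pc_sum _ fun i _ => pc_mul (hF i) (pc_const _)

lemma pc_bil (B : g →ₗ[ℂ] g →ₗ[ℂ] ℂ) {F G : (Fin m → ℂ) → g} (hF : PV F) (hG : PV G) :
    PC (fun z => B (F z) (G z)) := by
  have h : (fun z => B (F z) (G z)) =
      fun z => ∑ i ∈ Finset.univ, co (F z) i * B ((Module.finBasis ℂ g) i) (G z) := by
    funext z
    conv_lhs => rw [← sum_co (F z)]
    rw [map_sum, LinearMap.sum_apply]
    exact Finset.sum_congr rfl fun i _ => by rw [map_smul, LinearMap.smul_apply, smul_eq_mul]
  rw [h]
  exact pc_sum _ fun i _ => pc_mul (hF i) (pc_fun _ hG)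

lemma pv_br {F G : (Fin m → ℂ) → g} (hF : PV F) (hG : PV G) : PV (fun z => ⁅F z, G z⁆) := by
  intro i
  exact pc_bil (LinearMap.mk₂ ℂ (fun x y : g => (Module.finBasis ℂ g).coord i ⁅x, y⁆)
    (fun x x' y => by rw [add_lie, map_add]) (fun c x y => by rw [smul_lie, map_smul])
    (fun x y y' => by rw [lie_add, map_add]) (fun c x y => by rw [lie_smul, map_smul])) hF hG

lemma pv_pow {F G : (Fin m → ℂ) → g} (k : ℕ) (hF : PV F) (hG : PV G) :
    PV (fun z => ((LieAlgebra.ad ℂ g (F z) : Module.End ℂ g) ^ k) (G z)) := by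
  induction k with
  | zero => simpa using hG
  | succ k ih =>
    have h : (fun z => ((LieAlgebra.ad ℂ g (F z) : Module.End ℂ g) ^ (k + 1)) (G z)) =
        fun z => ⁅F z, ((LieAlgebra.ad ℂ g (F z) : Module.End ℂ g) ^ k) (G z)⁆ := by
      funext z
      rw [pow_succ', Module.End.mul_apply]
      rfl
    rw [h]
    exact pv_br hF ih

lemma pc_comp {k : ℕ} {F : g → ℂ} {G : (Fin m → ℂ) → g} (hF : HP k F) (hG : PV G) :
    PC (fun z => F (G z)) := by
  obtain ⟨P, -, hP⟩ := hF
  have h : (fun z => F (G z)) = fun z => MvPolynomial.eval (fun i => co (G z) i) P := by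
    funext z; rw [hP]; rfl
  rw [h]
  clear h hP
  induction P using MvPolynomial.induction_on with
  | C a => simpa using pc_const a
  | add p q hp hq => simpa using pc_add hp hq
  | mul_X p i hp => simpa using pc_mul hp (hG i)

lemma pv_zero : PV (fun _ : Fin m → ℂ => (0 : g)) := pv_const 0

lemma pv_uu (w : Fin m → ℕ) (E : Fin m → g) : PV (uu w E) := by
  unfold uu
  refine pv_sum _ fun j _ => ?_
  by_cases h : w j = 0
  · simp only [h, if_true]
    exact pv_smul (pc_coord j) (pv_const _)
  · simp only [h, if_false]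
    exact pv_zero

lemma pv_yy (w : Fin m → ℕ) (E : Fin m → g) : PV (yy w E) := by
  unfold yy
  refine pv_sum _ fun j _ => ?_
  by_cases h : w j = 1
  · simp only [h, if_true]
    exact pv_smul (pc_coord j) (pv_const _)
  · simp only [h, if_false]
    exact pv_zero

theorem hPVC : StPVC.{u} := by
  intro g _ _ _ m
  exact
    { const := pc_const
      coord := pc_coord
      add := fun F G hF hG => pc_add hF hG
      mul := fun F G hF hG => pc_mul hF hG
      vconst := pv_const
      vadd := fun F G hF hG => pv_add hF hG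
      vsum := fun ι s F h => pv_sum s h
      vsmul := fun a F ha hF => pv_smul ha hF
      vbr := fun F G hF hG => pv_br hF hG
      vpow := fun F G k hF hG => pv_pow k hF hG
      vfun := fun φ F hF => pc_fun φ hF
      vkil := fun F G hF hG => pc_bil (killingForm ℂ g) hF hG
      vcomp := fun k F G hF hG => pc_comp hF hG
      uu := pv_uu
      yy := pv_yy }

end Pool.Agent.Helper27.KPG
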